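import Mathlib

/-!
# The set of multinomial coefficients with upper entry `n`
-/

namespace Pool.Agent.Q248.MN

open Finset Nat

/-- `𝓜_n`: the set of distinct values `n! / (p₁! ⋯ p_t!)` over the partitions `p₁ + ⋯ + p_t = n`. -/
def MM (n : ℕ) : Finset ℕ :=
  (univ : Finset (Nat.Partition n)).image (fun p => n ! / (p.parts.map Nat.factorial).prod)

/-- `r_n(t)`: the number of pairs `x ≤ y` in `𝓜_n` with `x + y = t`. -/
def rr (n t : ℕ) : ℕ :=
  ((MM n ×ˢ MM n).filter (fun p => p.1 ≤ p.2 ∧ p.1 + p.2 = t)).card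

/-- `C(n) = ∑_t max(r_n(t) - 1, 0)` (only finitely many terms are nonzero). -/
noncomputable def CC (n : ℕ) : ℕ := ∑ᶠ t : ℕ, (rr n t - 1)

/-- `D(n) = #{t : r_n(t) ≥ 2}`. -/
noncomputable def DD (n : ℕ) : ℕ := {t : ℕ | 2 ≤ rr n t}.ncard

/-- `μ(n) = max_t r_n(t)`. -/
noncomputable def mu (n : ℕ) : ℕ := sSup (Set.range (rr n))

/-- the products of factorials over the partitions of `n` -/
def WW (n : ℕ) : Finset ℕ :=
  (univ : Finset (Nat.Partition n)).image (fun p => (p.parts.map Nat.factorial).prod)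

theorem mem_WW {n P : ℕ} : P ∈ WW n ↔ ∃ s : Multiset ℕ, (∀ i ∈ s, 0 < i) ∧ s.sum = n ∧
    (s.map Nat.factorial).prod = P := by
  unfold WW
  rw [mem_image]
  constructor
  · rintro ⟨p, _, rfl⟩
    exact ⟨p.parts, fun i hi => p.parts_pos hi, p.parts_sum, rfl⟩
  · rintro ⟨s, h1, h2, rfl⟩
    exact ⟨⟨s, fun {i} hi => h1 i hi, h2⟩, mem_univ _, rfl⟩

theorem prod_factorial_dvd (s : Multiset ℕ) : (s.map Nat.factorial).prod ∣ (s.sum)! := by
  induction s using Multiset.induction_on with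
  | empty => simp
  | cons a s ih =>
    rw [Multiset.map_cons, Multiset.prod_cons, Multiset.sum_cons]
    exact (Nat.mul_dvd_mul dvd_rfl ih).trans (Nat.factorial_mul_factorial_dvd_factorial_add _ _)

theorem dvd_of_mem_WW {n P : ℕ} (h : P ∈ WW n) : P ∣ n ! := by
  obtain ⟨s, _, h2, rfl⟩ := mem_WW.1 h
  rw [← h2]
  exact prod_factorial_dvd s

theorem pos_of_mem_WW {n P : ℕ} (h : P ∈ WW n) : 0 < P :=
  Nat.pos_of_dvd_of_pos (dvd_of_mem_WW h) (Nat.factorial_pos n)

theorem mem_MM {n x : ℕ} : x ∈ MM n ↔ ∃ P ∈ WW n, x * P = n ! := by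
  unfold MM
  rw [mem_image]
  constructor
  · rintro ⟨p, _, rfl⟩
    have hP : (p.parts.map Nat.factorial).prod ∈ WW n := mem_image.2 ⟨p, mem_univ _, rfl⟩
    exact ⟨_, hP, Nat.div_mul_cancel (dvd_of_mem_WW hP)⟩
  · rintro ⟨P, hP, hx⟩
    unfold WW at hP
    rw [mem_image] at hP
    obtain ⟨p, hp, rfl⟩ := hP
    refine ⟨p, hp, ?_⟩
    have h0 : 0 < (p.parts.map Nat.factorial).prod :=
      pos_of_mem_WW (n := n) (mem_image.2 ⟨p, mem_univ _, rfl⟩)
    exact Nat.div_eq_of_eq_mul_left h0 hx.symm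

theorem pos_of_mem_MM {n x : ℕ} (h : x ∈ MM n) : 0 < x := by
  obtain ⟨P, _, hx⟩ := mem_MM.1 h
  apply Nat.pos_of_ne_zero
  rintro rfl
  rw [zero_mul] at hx
  exact (Nat.factorial_pos n).ne hx

theorem card_MM (n : ℕ) : (MM n).card = (WW n).card := by
  apply Finset.card_bij' (fun x _ => n ! / x) (fun P _ => n ! / P)
  · intro x hx
    obtain ⟨P, hP, h⟩ := mem_MM.1 hx
    have : n ! / x = P := by
      rw [← h]; exact Nat.mul_div_cancel_left _ (pos_of_mem_MM hx)
    rw [this]; exact hP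
  · intro P hP
    exact mem_MM.2 ⟨P, hP, Nat.div_mul_cancel (dvd_of_mem_WW hP)⟩
  · intro x hx
    obtain ⟨P, hP, h⟩ := mem_MM.1 hx
    apply Nat.div_div_self ⟨P, h.symm⟩ (Nat.factorial_pos n).ne'
  · intro P hP
    exact Nat.div_div_self (dvd_of_mem_WW hP) (Nat.factorial_pos n).ne'

/-- adding a part -/
theorem mul_mem_WW {n P : ℕ} (h : P ∈ WW n) (p : ℕ) (hp : 0 < p) : P * p ! ∈ WW (n + p) := by
  obtain ⟨s, h1, h2, rfl⟩ := mem_WW.1 h
  rw [mem_WW]
  refine ⟨p ::ₘ s, ?_, ?_, ?_⟩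
  · intro i hi
    rw [Multiset.mem_cons] at hi
    rcases hi with rfl | hi
    · exact hp
    · exact h1 i hi
  · rw [Multiset.sum_cons, h2, add_comm]
  · rw [Multiset.map_cons, Multiset.prod_cons, mul_comm]

theorem WW_succ {n : ℕ} : WW n ⊆ WW (n + 1) := by
  intro P hP
  have := mul_mem_WW hP 1 one_pos
  rwa [Nat.factorial_one, mul_one] at this

theorem WW_mono {m n : ℕ} (h : m ≤ n) : WW m ⊆ WW n := by
  induction n, h using Nat.le_induction with
  | base => exact subset_rfl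
  | succ n _ ih => exact ih.trans WW_succ

/-- **Growth of the number of multinomial coefficients.** -/
theorem card_WW_succ (n : ℕ) : (WW (n + 2)).card ≤ (WW (n + 1)).card + (WW n).card := by
  classical
  have h1 : (WW (n + 2)).card = (WW (n + 2) \ WW (n + 1)).card + (WW (n + 1)).card := by
    rw [card_sdiff_add_card_eq_card WW_succ]
  rw [h1, add_comm]
  apply Nat.add_le_add_left
  -- remove a part
  have key : ∀ P : ℕ, ∃ P' p : ℕ, P ∈ WW (n + 2) \ WW (n + 1) →
      2 ≤ p ∧ p ≤ n + 2 ∧ P = P' * p ! ∧ P' ∈ WW (n + 2 - p) ∧ ∀ m, m < n + 2 - p → P' ∉ WW m := by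
    intro P
    by_cases hP : P ∈ WW (n + 2) \ WW (n + 1)
    · rw [mem_sdiff] at hP
      obtain ⟨s, s1, s2, s3⟩ := mem_WW.1 hP.1
      have hs : s ≠ 0 := by
        rintro rfl
        simp at s2
      obtain ⟨p, hp⟩ := Multiset.exists_mem_of_ne_zero hs
      obtain ⟨s', rfl⟩ := Multiset.exists_cons_of_mem hp
      rw [Multiset.sum_cons] at s2
      rw [Multiset.map_cons, Multiset.prod_cons] at s3
      have hp0 := s1 p (Multiset.mem_cons_self _ _)
      have hP' : (s'.map Nat.factorial).prod ∈ WW (n + 2 - p) :=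
        mem_WW.2 ⟨s', fun i hi => s1 i (Multiset.mem_cons_of_mem hi), by omega, rfl⟩
      refine ⟨(s'.map Nat.factorial).prod, p, fun _ => ⟨?_, by omega, ?_, hP', ?_⟩⟩
      · by_contra hcon
        have hp1 : p = 1 := by omega
        apply hP.2
        rw [← s3, hp1, Nat.factorial_one, one_mul]
        rw [hp1] at hP'
        exact hP'
      · rw [← s3, mul_comm]
      · intro m hm hPm
        apply hP.2
        have := mul_mem_WW hPm p hp0
        rw [mul_comm, s3] at this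
        exact WW_mono (by omega) this
    · exact ⟨0, 0, fun h => absurd h hP⟩
  choose f g hfg using key
  apply card_le_card_of_injOn f
  · intro P hP
    obtain ⟨h2, h3, h4, h5, h6⟩ := hfg P hP
    exact WW_mono (by omega) h5
  · intro P hP Q hQ hPQ
    obtain ⟨a2, a3, a4, a5, a6⟩ := hfg P hP
    obtain ⟨b2, b3, b4, b5, b6⟩ := hfg Q hQ
    have hg : g P = g Q := by
      rcases Nat.lt_trichotomy (g P) (g Q) with h | h | h
      · exfalso
        apply a6 (n + 2 - g Q) (by omega)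
        rw [hPQ]; exact b5
      · exact h
      · exfalso
        apply b6 (n + 2 - g P) (by omega)
        rw [← hPQ]; exact a5
    rw [a4, b4, hPQ, hg]

theorem card_MM_succ_le (n : ℕ) : (MM (n + 1)).card ≤ 2 * (MM n).card := by
  rw [card_MM, card_MM]
  rcases Nat.eq_zero_or_pos n with rfl | hn
  · have : (WW 1).card ≤ 1 := by
      apply card_le_one.2
      intro a ha b hb
      have h1 : ∀ P ∈ WW 1, P = 1 := by
        intro P hP
        have := dvd_of_mem_WW hP
        simpa using this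
      rw [h1 a ha, h1 b hb]
    have h2 : 0 < (WW 0).card := card_pos.2 ⟨1, mem_WW.2 ⟨0, by simp, by simp, by simp⟩⟩
    show (WW 1).card ≤ 2 * (WW 0).card
    omega
  · obtain ⟨m, rfl⟩ : ∃ m, n = m + 1 := ⟨n - 1, by omega⟩
    have h1 := card_WW_succ m
    have h2 := card_le_card (WW_succ (n := m))
    show (WW (m + 2)).card ≤ _
    omega

/-- many multinomial coefficients -/
theorem cube_le_card (k n : ℕ) (hk : 10 * k ≤ n) : k ^ 3 ≤ (MM n).card := by
  rw [card_MM]
  have h1 : ((range k ×ˢ range k) ×ˢ range k).card = k ^ 3 := by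
    rw [card_product, card_product, card_range]; ring
  rw [← h1]
  apply card_le_card_of_injOn (fun q => 2 ^ q.1.1 * 6 ^ q.1.2 * 120 ^ q.2)
  · rintro ⟨⟨a, b⟩, c⟩ hq
    rw [mem_coe, mem_product, mem_product, mem_range, mem_range, mem_range] at hq
    obtain ⟨⟨ha, hb⟩, hc⟩ := hq
    simp only at ha hb hc
    have : 2 ^ a * 6 ^ b * 120 ^ c ∈ WW (2 * a + 3 * b + 5 * c) := by
      rw [mem_WW]
      refine ⟨Multiset.replicate a 2 + Multiset.replicate b 3 + Multiset.replicate c 5, ?_, ?_, ?_⟩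
      · intro i hi
        simp only [Multiset.mem_add, Multiset.mem_replicate] at hi
        omega
      · simp only [Multiset.sum_add, Multiset.sum_replicate, smul_eq_mul]
        ring
      · simp only [Multiset.map_add, Multiset.map_replicate, Multiset.prod_add,
          Multiset.prod_replicate]
        rfl
    exact WW_mono (by omega) this
  · rintro ⟨⟨a, b⟩, c⟩ _ ⟨⟨a', b'⟩, c'⟩ _ h
    have h' : 2 ^ a * 6 ^ b * 120 ^ c = 2 ^ a' * 6 ^ b' * 120 ^ c' := h
    have e : ∀ a b c : ℕ, 2 ^ a * 6 ^ b * 120 ^ c =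
        2 ^ (a + b + 3 * c) * 3 ^ (b + c) * 5 ^ c := by
      intro a b c
      rw [show (6 : ℕ) = 2 * 3 by norm_num, show (120 : ℕ) = 2 ^ 3 * 3 * 5 by norm_num, mul_pow,
        mul_pow, mul_pow, ← pow_mul, pow_add, pow_add, pow_add]
      ring
    rw [e, e] at h'
    have v : ∀ x y z : ℕ, (2 ^ x * 3 ^ y * 5 ^ z).factorization 2 = x ∧
        (2 ^ x * 3 ^ y * 5 ^ z).factorization 3 = y ∧
        (2 ^ x * 3 ^ y * 5 ^ z).factorization 5 = z := by
      intro x y z
      have p2 := Nat.prime_two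
      have p3 := Nat.prime_three
      have p5 := Nat.prime_five
      rw [Nat.factorization_mul (by positivity) (by positivity),
        Nat.factorization_mul (by positivity) (by positivity),
        p2.factorization_pow, p3.factorization_pow, p5.factorization_pow]
      simp
    have v1 := v (a + b + 3 * c) (b + c) c
    have v2 := v (a' + b' + 3 * c') (b' + c') c'
    rw [h'] at v1
    obtain ⟨x1, x2, x3⟩ := v1
    obtain ⟨y1, y2, y3⟩ := v2
    have hc : c = c' := by omega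
    have hb : b = b' := by omega
    have ha : a = a' := by omega
    rw [ha, hb, hc]

/-- the dilated progressions -/
theorem triple {n : ℕ} {P : ℕ} (hP : P ∈ WW n) : ∃ y : ℕ, y * (12 * P) = (n + 5)! ∧
    y ∈ MM (n + 5) ∧ 2 * y ∈ MM (n + 5) ∧ 3 * y ∈ MM (n + 5) := by
  have h12 : P * 3 ! * 2 ! ∈ WW (n + 5) := mul_mem_WW (mul_mem_WW hP 3 (by norm_num)) 2 (by norm_num)
  have h6 : P * 3 ! ∈ WW (n + 5) := WW_mono (by omega) (mul_mem_WW hP 3 (by norm_num))
  have h4 : P * 2 ! * 2 ! ∈ WW (n + 5) :=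
    WW_mono (show n + 2 + 2 ≤ n + 5 by omega) (mul_mem_WW (mul_mem_WW hP 2 (by norm_num)) 2 (by norm_num))
  have e3 : (3 : ℕ)! = 6 := rfl
  have e2 : (2 : ℕ)! = 2 := rfl
  rw [e3, e2] at h12
  rw [e3] at h6
  rw [e2] at h4
  obtain ⟨y, hy⟩ := dvd_of_mem_WW h12
  refine ⟨y, by rw [hy]; ring, mem_MM.2 ⟨_, h12, by rw [hy]; ring⟩,
    mem_MM.2 ⟨_, h6, by rw [hy]; ring⟩, mem_MM.2 ⟨_, h4, by rw [hy]; ring⟩⟩

theorem rr_le (n t : ℕ) : rr n t ≤ (MM n).card := by
  unfold rr
  apply card_le_card_of_injOn Prod.fst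
  · intro p hp
    rw [mem_coe, mem_filter, mem_product] at hp
    exact hp.1.1
  · intro p hp q hq h
    rw [mem_coe, mem_filter] at hp hq
    ext
    · exact h
    · have := hp.2.2
      have := hq.2.2
      omega

theorem rr_support (n : ℕ) : {t : ℕ | rr n t ≠ 0} ⊆
    ((MM n ×ˢ MM n).image (fun p => p.1 + p.2) : Finset ℕ) := by
  intro t ht
  rw [Set.mem_ofPred_eq] at ht
  unfold rr at ht
  rw [Finset.card_ne_zero] at ht
  obtain ⟨p, hp⟩ := ht
  rw [mem_filter] at hp
  rw [mem_coe, mem_image]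
  exact ⟨p, hp.1, hp.2.2⟩

theorem DD_finite (n : ℕ) : {t : ℕ | 2 ≤ rr n t}.Finite :=
  (finite_toSet _).subset (fun t ht => rr_support n (by
    rw [Set.mem_ofPred_eq] at ht ⊢; omega))

/-- `D(n + 5) ≥ M(n)`. -/
theorem card_le_DD (n : ℕ) : (MM n).card ≤ DD (n + 5) := by
  classical
  rw [card_MM]
  have h : ∀ P : ℕ, ∃ y : ℕ, P ∈ WW n → y * (12 * P) = (n + 5)! ∧
    y ∈ MM (n + 5) ∧ 2 * y ∈ MM (n + 5) ∧ 3 * y ∈ MM (n + 5) := by
    intro P
    by_cases hP : P ∈ WW n
    · obtain ⟨y, hy⟩ := triple hP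
      exact ⟨y, fun _ => hy⟩
    · exact ⟨0, fun h => absurd h hP⟩
  choose y hy using h
  unfold DD
  rw [← Set.ncard_coe_finset]
  apply Set.ncard_le_ncard_of_injOn (fun P => 4 * y P) ?_ ?_ (DD_finite _)
  · intro P hP
    obtain ⟨h1, h2, h3, h4⟩ := hy P hP
    have hpos := pos_of_mem_MM h2
    rw [Set.mem_ofPred_eq]
    unfold rr
    have hsub : ({(y P, 3 * y P), (2 * y P, 2 * y P)} : Finset (ℕ × ℕ)) ⊆
        (MM (n + 5) ×ˢ MM (n + 5)).filter (fun p => p.1 ≤ p.2 ∧ p.1 + p.2 = 4 * y P) := by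
      intro p hp
      rw [mem_insert, mem_singleton] at hp
      rw [mem_filter, mem_product]
      rcases hp with rfl | rfl
      · exact ⟨⟨h2, h4⟩, by simp only; omega, by simp only; omega⟩
      · exact ⟨⟨h3, h3⟩, le_rfl, by simp only; omega⟩
    have hc : ({(y P, 3 * y P), (2 * y P, 2 * y P)} : Finset (ℕ × ℕ)).card = 2 := by
      rw [card_pair]
      intro he
      have := (Prod.mk.inj he).1
      omega
    rw [← hc]
    exact card_le_card hsub
  · intro P hP Q hQ h
    have h' : 4 * y P = 4 * y Q := h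
    obtain ⟨h1, h2, -, -⟩ := hy P hP
    obtain ⟨h3, -, -, -⟩ := hy Q hQ
    have e : y P = y Q := by omega
    rw [← h3, e] at h1
    have hpos := pos_of_mem_MM h2
    rw [e] at hpos
    have := Nat.eq_of_mul_eq_mul_left hpos h1
    omega

/-- `C(n) ≥ D(n)`. -/
theorem DD_le_CC (n : ℕ) : DD n ≤ CC n := by
  classical
  unfold DD CC
  have hfin := DD_finite n
  have hsupp : Function.support (fun t => rr n t - 1) ⊆ (hfin.toFinset : Set ℕ) := by
    intro t ht
    rw [Function.mem_support] at ht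
    rw [Set.Finite.coe_toFinset, Set.mem_ofPred_eq]
    omega
  rw [finsum_eq_sum_of_support_subset _ hsupp, Set.ncard_eq_toFinset_card _ hfin, card_eq_sum_ones]
  apply sum_le_sum
  intro t ht
  rw [Set.Finite.mem_toFinset, Set.mem_ofPred_eq] at ht
  omega

end Pool.Agent.Q248.MN
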