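import Pool.Agent.Q248.MN.Defs

/-!
# The normalized collision counts tend to infinity
-/

namespace Pool.Agent.Q248.MN

open Finset Nat Filter

theorem cube_le_DD (n : ℕ) (hn : 30 ≤ n) : ((n : ℝ)) ^ 3 / 8000 ≤ DD n := by
  obtain ⟨m, rfl⟩ : ∃ m, n = m + 5 := ⟨n - 5, by omega⟩
  have h1 := cube_le_card (m / 10) m (Nat.mul_div_le m 10)
  have h2 := card_le_DD m
  have h3 : ((m / 10 : ℕ) : ℝ) ^ 3 ≤ DD (m + 5) := by exact_mod_cast h1.trans h2
  have h4 : ((m + 5 : ℕ) : ℝ) / 20 ≤ ((m / 10 : ℕ) : ℝ) := by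
    rw [div_le_iff₀ (by norm_num)]
    have : m + 5 ≤ (m / 10) * 20 := by omega
    exact_mod_cast this
  calc (((m + 5 : ℕ) : ℝ)) ^ 3 / 8000 = (((m + 5 : ℕ) : ℝ) / 20) ^ 3 := by ring
    _ ≤ ((m / 10 : ℕ) : ℝ) ^ 3 := by gcongr
    _ ≤ _ := h3

theorem log_le_two_sqrt {x : ℝ} (hx : 1 ≤ x) : Real.log x ≤ 2 * Real.sqrt x := by
  have h1 : Real.log (Real.sqrt x) ≤ Real.sqrt x - 1 :=
    Real.log_le_sub_one_of_pos (Real.sqrt_pos.2 (by linarith))
  rw [Real.log_sqrt (by linarith)] at h1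
  linarith

theorem tendsto_D : Tendsto (fun n : ℕ => (DD n : ℝ) /
    ((n : ℝ) ^ (3 / 2 : ℝ) * Real.sqrt (Real.log n))) atTop atTop := by
  have h1 : Tendsto (fun n : ℕ => (n : ℝ) / 8000) atTop atTop :=
    tendsto_natCast_atTop_atTop.atTop_div_const (by norm_num)
  refine tendsto_atTop_mono' _ ?_ h1
  filter_upwards [eventually_ge_atTop 30] with n hn
  have hn' : (30 : ℝ) ≤ n := by exact_mod_cast hn
  have hlog : 0 < Real.log n := Real.log_pos (by linarith)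
  have hD := cube_le_DD n hn
  rw [le_div_iff₀ (by positivity)]
  have h2 : Real.sqrt (Real.log n) ≤ (n : ℝ) ^ (1 / 2 : ℝ) := by
    rw [Real.sqrt_eq_rpow]
    apply Real.rpow_le_rpow hlog.le _ (by norm_num)
    have := Real.log_le_sub_one_of_pos (show (0 : ℝ) < n by linarith)
    linarith
  calc (n : ℝ) / 8000 * ((n : ℝ) ^ (3 / 2 : ℝ) * Real.sqrt (Real.log n))
      ≤ (n : ℝ) / 8000 * ((n : ℝ) ^ (3 / 2 : ℝ) * (n : ℝ) ^ (1 / 2 : ℝ)) := by gcongr
    _ = (n : ℝ) ^ 3 / 8000 := by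
        rw [← Real.rpow_add (by linarith)]
        norm_num
        ring
    _ ≤ _ := hD

theorem tendsto_C : Tendsto (fun n : ℕ => (CC n : ℝ) / ((n : ℝ) ^ 2 * Real.log n)) atTop atTop := by
  have h1 : Tendsto (fun n : ℕ => Real.sqrt (n : ℝ) / 16000) atTop atTop :=
    (Real.tendsto_sqrt_atTop.comp tendsto_natCast_atTop_atTop).atTop_div_const (by norm_num)
  refine tendsto_atTop_mono' _ ?_ h1
  filter_upwards [eventually_ge_atTop 30] with n hn
  have hn' : (30 : ℝ) ≤ n := by exact_mod_cast hn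
  have hlog : 0 < Real.log n := Real.log_pos (by linarith)
  have hD := cube_le_DD n hn
  have hC : (DD n : ℝ) ≤ CC n := by exact_mod_cast DD_le_CC n
  rw [le_div_iff₀ (by positivity)]
  have h2 := log_le_two_sqrt (show (1 : ℝ) ≤ n by linarith)
  have hs := Real.sqrt_nonneg (n : ℝ)
  calc Real.sqrt n / 16000 * ((n : ℝ) ^ 2 * Real.log n)
      ≤ Real.sqrt n / 16000 * ((n : ℝ) ^ 2 * (2 * Real.sqrt n)) := by gcongr
    _ = (n : ℝ) ^ 2 * (Real.sqrt n * Real.sqrt n) / 8000 := by ring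
    _ = (n : ℝ) ^ 3 / 8000 := by
        rw [Real.mul_self_sqrt (by linarith)]; ring
    _ ≤ _ := hD.trans hC

end Pool.Agent.Q248.MN
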