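import Pool.Agent.Q248.MN.Limits

/-!
# The maximal number of representations
-/

namespace Pool.Agent.Q248.MN

open Finset Nat Filter

/-- products of distinct numbers `≤ L` are, up to a common factor, multinomial coefficients -/
theorem prod_mem (n L : ℕ) (hL : L * (L + 1) ≤ 2 * n) :
    ∃ K : ℕ, 0 < K ∧ ∀ T ⊆ Icc 2 L, K * ∏ i ∈ T, i ∈ MM n := by
  classical
  have hsum : ∑ i ∈ Icc 1 L, i ≤ n := by
    have h1 : ∑ i ∈ range (L + 1), i = ∑ i ∈ Icc 1 L, i := by
      symm
      apply sum_subset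
      · intro i hi
        rw [mem_Icc] at hi
        rw [mem_range]; omega
      · intro i hi hi2
        rw [mem_range] at hi
        rw [mem_Icc] at hi2
        omega
    rw [← h1]
    have h2 := Finset.sum_range_id_mul_two (L + 1)
    simp only [Nat.add_sub_cancel] at h2
    nlinarith
  have key : ∀ T ⊆ Icc 2 L, ∃ P ∈ WW n, P * ∏ i ∈ T, i = ∏ i ∈ Icc 1 L, i ! := by
    intro T hT
    refine ⟨∏ i ∈ Icc 1 L, (if i ∈ T then i - 1 else i)!, ?_, ?_⟩
    · have hle : ∑ i ∈ Icc 1 L, (if i ∈ T then i - 1 else i) ≤ n := by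
        refine le_trans (sum_le_sum (fun i _ => ?_)) hsum
        split_ifs <;> omega
      apply WW_mono hle
      rw [mem_WW]
      refine ⟨(Icc 1 L).val.map (fun i => if i ∈ T then i - 1 else i), ?_, rfl, ?_⟩
      · intro i hi
        rw [Multiset.mem_map] at hi
        obtain ⟨j, hj, rfl⟩ := hi
        have hj' : j ∈ Icc 1 L := hj
        rw [mem_Icc] at hj'
        split_ifs with h
        · have := mem_Icc.1 (hT h)
          omega
        · omega
      · rw [Multiset.map_map]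
        rfl
    · have h1 : ∏ i ∈ T, i = ∏ i ∈ Icc 1 L, (if i ∈ T then i else 1) := by
        rw [← prod_filter]
        congr 1
        ext i
        rw [mem_filter]
        constructor
        · intro hi
          have := mem_Icc.1 (hT hi)
          exact ⟨mem_Icc.2 (by omega), hi⟩
        · exact fun h => h.2
      rw [h1, ← prod_mul_distrib]
      apply prod_congr rfl
      intro i hi
      split_ifs with h
      · have h2 := mem_Icc.1 hi
        rw [mul_comm]
        exact Nat.mul_factorial_pred (by omega)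
      · rw [mul_one]
  obtain ⟨P0, hP0, hP0'⟩ := key ∅ (empty_subset _)
  rw [prod_empty, mul_one] at hP0'
  obtain ⟨K, hK⟩ := dvd_of_mem_WW hP0
  refine ⟨K, ?_, ?_⟩
  · apply Nat.pos_of_ne_zero
    rintro rfl
    rw [mul_zero] at hK
    exact (Nat.factorial_pos n).ne' hK
  · intro T hT
    obtain ⟨P, hP, hP'⟩ := key T hT
    rw [mem_MM]
    refine ⟨P, hP, ?_⟩
    rw [hK, hP0', ← hP']
    ring

theorem rr_le_mu (n t : ℕ) : rr n t ≤ mu n :=
  le_csSup ⟨(MM n).card, by rintro _ ⟨t, rfl⟩; exact rr_le n t⟩ ⟨t, rfl⟩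

/-- the pigeonhole bound -/
theorem choose_sq_le (n L : ℕ) (hL : L * (L + 1) ≤ 2 * n) :
    ((primeCounting L).choose 2) ^ 2 ≤ 2 * mu n * (2 * L ^ 2) := by
  classical
  obtain ⟨K, hK, hmem⟩ := prod_mem n L hL
  set Pr := (range (L + 1)).filter Nat.Prime with hPr
  have hPrc : Pr.card = primeCounting L := by
    rw [hPr, primeCounting, primeCounting', Nat.count_eq_card_filter_range]
  set X := (Pr.powersetCard 2).image (fun T => K * ∏ i ∈ T, i) with hX
  have hXc : X.card = (primeCounting L).choose 2 := by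
    rw [hX, Finset.card_image_of_injOn, card_powersetCard, hPrc]
    intro T hT U hU h
    rw [mem_coe, mem_powersetCard] at hT hU
    have h' : K * ∏ i ∈ T, i = K * ∏ i ∈ U, i := h
    have h2 := Nat.eq_of_mul_eq_mul_left hK h'
    have pT : ∀ p ∈ T, p.Prime := fun p hp => (mem_filter.1 (hT.1 hp)).2
    have pU : ∀ p ∈ U, p.Prime := fun p hp => (mem_filter.1 (hU.1 hp)).2
    rw [← Nat.primeFactors_prod pT, ← Nat.primeFactors_prod pU, h2]
  have hXM : ∀ x ∈ X, x ∈ MM n ∧ ∃ j, x = K * j ∧ 1 ≤ j ∧ j ≤ L ^ 2 := by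
    intro x hx
    rw [hX, mem_image] at hx
    obtain ⟨T, hT, rfl⟩ := hx
    rw [mem_powersetCard] at hT
    have hT2 : ∀ p ∈ T, 2 ≤ p ∧ p ≤ L := by
      intro p hp
      have := mem_filter.1 (hT.1 hp)
      exact ⟨this.2.two_le, by have := mem_range.1 this.1; omega⟩
    refine ⟨hmem T (fun p hp => mem_Icc.2 (hT2 p hp)), ∏ i ∈ T, i, rfl, ?_, ?_⟩
    · exact Finset.one_le_prod' (fun p hp => by have := hT2 p hp; omega)
    · rw [← hT.2]
      exact prod_le_pow_card _ _ _ (fun p hp => (hT2 p hp).2)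
  have h1 : (X ×ˢ X).card ≤ (2 * mu n) * ((Icc 1 (2 * L ^ 2)).image (fun j => K * j)).card := by
    apply card_le_mul_card_image_of_maps_to (f := fun p => p.1 + p.2)
    · intro p hp
      rw [mem_product] at hp
      obtain ⟨_, i, hi, hi1, hi2⟩ := hXM _ hp.1
      obtain ⟨_, j, hj, hj1, hj2⟩ := hXM _ hp.2
      rw [mem_image]
      exact ⟨i + j, mem_Icc.2 (by omega), by rw [hi, hj]; ring⟩
    · intro t _
      have h2 : (X ×ˢ X).filter (fun p => p.1 + p.2 = t) ⊆
          (MM n ×ˢ MM n).filter (fun p => p.1 ≤ p.2 ∧ p.1 + p.2 = t) ∪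
          ((MM n ×ˢ MM n).filter (fun p => p.1 ≤ p.2 ∧ p.1 + p.2 = t)).image Prod.swap := by
        rintro ⟨x, y⟩ hp
        rw [mem_filter, mem_product] at hp
        have hx := (hXM _ hp.1.1).1
        have hy := (hXM _ hp.1.2).1
        have ht : x + y = t := hp.2
        rw [mem_union]
        rcases Nat.le_total x y with h | h
        · left
          rw [mem_filter, mem_product]
          exact ⟨⟨hx, hy⟩, h, ht⟩
        · right
          rw [mem_image]
          refine ⟨(y, x), ?_, rfl⟩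
          rw [mem_filter, mem_product]
          exact ⟨⟨hy, hx⟩, h, by simp only; omega⟩
      have h3 := (card_le_card h2).trans (card_union_le _ _)
      have h4 : (((MM n ×ˢ MM n).filter (fun p => p.1 ≤ p.2 ∧ p.1 + p.2 = t)).image Prod.swap).card ≤
          rr n t := card_image_le
      have h5 := rr_le_mu n t
      have h6 : ((MM n ×ˢ MM n).filter (fun p => p.1 ≤ p.2 ∧ p.1 + p.2 = t)).card = rr n t := rfl
      omega
  rw [card_product, hXc, ← pow_two] at h1
  refine h1.trans (Nat.mul_le_mul_left _ ?_)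
  refine card_image_le.trans ?_
  rw [Nat.card_Icc]
  omega

/-- Chebyshev's lower bound in the form needed -/
theorem primeCounting_lower (L : ℕ) (hL : 100 ≤ L) (r : ℝ) (hr : 1 ≤ r) (hrL : r ^ 8 = L) :
    r ^ 7 / 16 ≤ primeCounting L := by
  have h1 := Chebyshev.psi_ge L
  have h2 := Chebyshev.psi_le_primeCounting_mul_log L
  have hL' : (100 : ℝ) ≤ L := by exact_mod_cast hL
  have hlog : Real.log L ≤ 8 * r := by
    rw [← hrL, Real.log_pow]
    have := Real.log_le_sub_one_of_pos (show (0 : ℝ) < r by linarith)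
    push_cast
    linarith
  have h3 : Real.log ((L : ℝ) + 1) ≤ 0.19 * L := by
    have h4 := log_le_two_sqrt (show (1 : ℝ) ≤ (L : ℝ) + 1 by linarith)
    -- 2 √(L+1) is too large for L near 100; use log x = 2 log √x ≤ ... with a shift
    have h5 : Real.log ((L : ℝ) + 1) = Real.log (((L : ℝ) + 1) / 16) + Real.log 16 := by
      rw [← Real.log_mul (by positivity) (by norm_num)]
      congr 1; ring
    have h6 : Real.log (((L : ℝ) + 1) / 16) ≤ ((L : ℝ) + 1) / 16 - 1 :=
      Real.log_le_sub_one_of_pos (by positivity)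
    have h7 : Real.log 16 ≤ 2.8 := by
      rw [show (16 : ℝ) = 2 ^ 4 by norm_num, Real.log_pow]
      have := Real.log_two_lt_d9
      push_cast
      linarith
    rw [h5]
    linarith
  have h8 : (L : ℝ) / 2 ≤ (primeCounting L : ℝ) * (8 * r) := by
    have h9 := Real.log_two_gt_d9
    have h10 : (primeCounting L : ℝ) * Real.log L ≤ (primeCounting L : ℝ) * (8 * r) :=
      mul_le_mul_of_nonneg_left hlog (Nat.cast_nonneg _)
    nlinarith
  rw [← hrL] at h8
  have h11 : r ^ 7 / 16 * (8 * r) ≤ (primeCounting L : ℝ) * (8 * r) := by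
    calc r ^ 7 / 16 * (8 * r) = r ^ 8 / 2 := by ring
      _ ≤ _ := h8
  exact le_of_mul_le_mul_right h11 (by linarith)

theorem mu_lower (n : ℕ) (hn : 10000 ≤ n) (r : ℝ) (hr : 2 ≤ r) (hrL : r ^ 8 = (Nat.sqrt n : ℝ)) :
    r ^ 3 / 37748736 ≤ (mu n : ℝ) / Real.sqrt ((n : ℝ) * Real.log n) := by
  set L := Nat.sqrt n with hL
  have hL1 : L * L ≤ n := Nat.sqrt_le n
  have hL2 : n < (L + 1) * (L + 1) := Nat.lt_succ_sqrt n
  have hL100 : 100 ≤ L := by
    by_contra hcon
    push Not at hcon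
    have : (L + 1) * (L + 1) ≤ 100 * 100 := Nat.mul_le_mul (by omega) (by omega)
    omega
  have hLL : L * (L + 1) ≤ 2 * n := by nlinarith
  have h1 := choose_sq_le n L hLL
  have h2 := primeCounting_lower L hL100 r (by linarith) hrL
  have hr7 : (128 : ℝ) ≤ r ^ 7 := by
    calc (128 : ℝ) = 2 ^ 7 := by norm_num
      _ ≤ r ^ 7 := by gcongr
  have hpi : (2 : ℝ) ≤ primeCounting L := by linarith
  have h3 : ((primeCounting L).choose 2 : ℝ) = (primeCounting L : ℝ) * (primeCounting L - 1) / 2 :=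
    Nat.cast_choose_two ℝ _
  have h4 : (r ^ 7 / 16) ^ 2 / 4 ≤ ((primeCounting L).choose 2 : ℝ) := by
    rw [h3]
    have h5 : (r ^ 7 / 16) ^ 2 ≤ (primeCounting L : ℝ) ^ 2 := by gcongr
    nlinarith
  have h5 : (((primeCounting L).choose 2 : ℝ)) ^ 2 ≤ 4 * (mu n : ℝ) * (L : ℝ) ^ 2 := by
    have : ((((primeCounting L).choose 2) ^ 2 : ℕ) : ℝ) ≤ ((2 * mu n * (2 * L ^ 2) : ℕ) : ℝ) := by
      exact_mod_cast h1
    push_cast at this
    linarith
  have h6 : ((r ^ 7 / 16) ^ 2 / 4) ^ 2 ≤ 4 * (mu n : ℝ) * (L : ℝ) ^ 2 := by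
    refine le_trans ?_ h5
    gcongr
  have hrpos : 0 < r := by linarith
  have h7 : r ^ 12 / 4194304 ≤ (mu n : ℝ) := by
    rw [← hrL] at h6
    have h8 : r ^ 12 / 4194304 * (4 * (r ^ 8) ^ 2) ≤ (mu n : ℝ) * (4 * (r ^ 8) ^ 2) := by
      calc r ^ 12 / 4194304 * (4 * (r ^ 8) ^ 2) = ((r ^ 7 / 16) ^ 2 / 4) ^ 2 := by ring
        _ ≤ _ := by linarith
    exact le_of_mul_le_mul_right h8 (by positivity)
  -- the upper bound for √(n log n)
  have hnR : (n : ℝ) ≤ 4 * r ^ 16 := by
    have h8 : (n : ℝ) ≤ ((L : ℝ) + 1) * (L + 1) := by exact_mod_cast hL2.le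
    have h9 : (100 : ℝ) ≤ L := by exact_mod_cast hL100
    calc (n : ℝ) ≤ ((L : ℝ) + 1) * (L + 1) := h8
      _ ≤ (2 * L) * (2 * L) := by nlinarith
      _ = 4 * r ^ 16 := by rw [← hrL]; ring
  have hn' : (10000 : ℝ) ≤ n := by exact_mod_cast hn
  have hlog : Real.log n ≤ 18 * r := by
    have h8 : Real.log n ≤ Real.log (4 * r ^ 16) := Real.log_le_log (by linarith) hnR
    rw [Real.log_mul (by norm_num) (by positivity), Real.log_pow] at h8
    have h9 := Real.log_le_sub_one_of_pos hrpos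
    have h10 : Real.log 4 ≤ 1.4 := by
      rw [show (4 : ℝ) = 2 ^ 2 by norm_num, Real.log_pow]
      have := Real.log_two_lt_d9
      push_cast
      linarith
    push_cast at h8
    linarith
  have hlogpos : 0 < Real.log n := Real.log_pos (by linarith)
  have hsq : Real.sqrt ((n : ℝ) * Real.log n) ≤ 9 * r ^ 9 := by
    rw [Real.sqrt_le_left (by positivity)]
    calc (n : ℝ) * Real.log n ≤ (4 * r ^ 16) * (18 * r) := by gcongr
      _ = 72 * r ^ 17 := by ring
      _ ≤ 81 * r ^ 18 := by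
          have : r ^ 17 ≤ r ^ 18 := by
            calc r ^ 17 = r ^ 17 * 1 := by ring
              _ ≤ r ^ 17 * r := by gcongr; linarith
              _ = r ^ 18 := by ring
          have h0 : 0 ≤ r ^ 17 := by positivity
          linarith
      _ = (9 * r ^ 9) ^ 2 := by ring
  have hsqpos : 0 < Real.sqrt ((n : ℝ) * Real.log n) := Real.sqrt_pos.2 (by positivity)
  rw [le_div_iff₀ hsqpos]
  calc r ^ 3 / 37748736 * Real.sqrt ((n : ℝ) * Real.log n) ≤ r ^ 3 / 37748736 * (9 * r ^ 9) := by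
        gcongr
    _ = r ^ 12 / 4194304 := by ring
    _ ≤ _ := h7

theorem tendsto_mu : Tendsto (fun n : ℕ => (mu n : ℝ) / Real.sqrt ((n : ℝ) * Real.log n))
    atTop atTop := by
  have hs : Tendsto (fun n : ℕ => (Nat.sqrt n : ℝ)) atTop atTop := by
    have h1 : Tendsto (fun n : ℕ => Real.sqrt (n : ℝ) - 1) atTop atTop :=
      tendsto_atTop_add_const_right _ _ (Real.tendsto_sqrt_atTop.comp tendsto_natCast_atTop_atTop)
    refine tendsto_atTop_mono (fun n => ?_) h1
    have h2 : Real.sqrt (n : ℝ) ≤ (Nat.sqrt n : ℝ) + 1 := by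
      rw [Real.sqrt_le_left (by positivity)]
      have : (n : ℝ) ≤ ((Nat.sqrt n + 1) * (Nat.sqrt n + 1) : ℕ) := by
        exact_mod_cast (Nat.lt_succ_sqrt n).le
      push_cast at this
      linarith
    linarith
  have hr : Tendsto (fun n : ℕ => ((Nat.sqrt n : ℝ) ^ (1 / 8 : ℝ))) atTop atTop :=
    (tendsto_rpow_atTop (by norm_num)).comp hs
  have h3 : Tendsto (fun n : ℕ => ((Nat.sqrt n : ℝ) ^ (1 / 8 : ℝ)) ^ 3 / 37748736) atTop atTop :=
    ((tendsto_pow_atTop (by norm_num)).comp hr).atTop_div_const (by norm_num)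
  refine tendsto_atTop_mono' _ ?_ h3
  filter_upwards [eventually_ge_atTop 10000, hr.eventually_ge_atTop 2] with n hn hr2
  apply mu_lower n hn _ hr2
  rw [← Real.rpow_natCast, ← Real.rpow_mul (Nat.cast_nonneg _)]
  norm_num

end Pool.Agent.Q248.MN
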